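import Pool.Agent.Helper29.UG.Props

/-!
# MP_b55b7c_an: the net of invariant approximately central approximate projections
-/

open scoped ENNReal NNReal InnerProductSpace ComplexOrder
open Filter Topology

attribute [-instance] CStarMatrix.instAlgebra CStarMatrix.instModule CStarMatrix.instSMul
  CStarMatrix.instMulAction CStarMatrix.instDistribMulAction

noncomputable section
namespace RC
universe u

theorem hNet_proof : HNetP.{u} := by
  intro A _ _ _ G α hE
  classical
  have hpos : ∀ t : Finset A × ℕ, (0 : ℝ) < 1 / ((t.2 : ℝ) + 1) := fun t => by positivity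
  choose y hinv hnn hle hφ using fun t : Finset A × ℕ => hE t.1 (1 / ((t.2 : ℝ) + 1)) (hpos t)
  have hsmall : ∀ ε : ℝ, 0 < ε → ∃ n₀ : ℕ, ∀ n : ℕ, n₀ ≤ n → 1 / ((n : ℝ) + 1) ≤ ε := by
    intro ε hε
    obtain ⟨n₀, hn₀⟩ := exists_nat_one_div_lt hε
    refine ⟨n₀, fun n hn => le_trans ?_ hn₀.le⟩
    exact one_div_le_one_div_of_le (by positivity) (by
      have : (n₀ : ℝ) ≤ n := by exact_mod_cast hn
      linarith)
  refine ⟨Finset A × ℕ, atTop, y, inferInstance, ⟨hinv, hnn, hle, ?_, ?_, ?_⟩⟩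
  · intro ε hε
    obtain ⟨n₀, hn₀⟩ := hsmall ε hε
    filter_upwards [eventually_ge_atTop ((∅ : Finset A), n₀)] with t ht φ hI
    exact ((hφ t φ hI).1).trans (hn₀ t.2 ht.2)
  · intro w ε hε
    obtain ⟨n₀, hn₀⟩ := hsmall ε hε
    filter_upwards [eventually_ge_atTop (({w} : Finset A), n₀)] with t ht φ hI
    exact (((hφ t φ hI).2 w (ht.1 (Finset.mem_singleton_self w))).1).trans (hn₀ t.2 ht.2)
  · intro w ε hε
    obtain ⟨n₀, hn₀⟩ := hsmall ε hε
    filter_upwards [eventually_ge_atTop (({w} : Finset A), n₀)] with t ht φ hI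
    exact (((hφ t φ hI).2 w (ht.1 (Finset.mem_singleton_self w))).2).trans (hn₀ t.2 ht.2)

end RC
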